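import Mathlib

/-!
# Zeros of polynomials along polynomial curves
-/

set_option autoImplicit false

open Polynomial

namespace Pool.Agent.Y119.MD

lemma eval_curve {n : ℕ} (P : MvPolynomial (Fin n) ℂ) (p : Fin n → ℂ[X]) (t : ℂ) :
    (MvPolynomial.aeval p P).eval t = MvPolynomial.eval (fun i => (p i).eval t) P := by
  induction P using MvPolynomial.induction_on with
  | C a => simp
  | add q r hq hr => rw [map_add, map_add, Polynomial.eval_add, hq, hr]
  | mul_X q i hq => rw [map_mul, map_mul, Polynomial.eval_mul, hq]; simp

/-- a polynomial vanishes on a polynomial curve if it vanishes at infinitely many of its points -/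
theorem curve_zero {n : ℕ} (P : MvPolynomial (Fin n) ℂ) (p : Fin n → ℂ[X])
    (h : {t : ℂ | MvPolynomial.eval (fun i => (p i).eval t) P = 0}.Infinite) (t : ℂ) :
    MvPolynomial.eval (fun i => (p i).eval t) P = 0 := by
  have h1 : MvPolynomial.aeval p P = 0 := by
    apply Polynomial.eq_zero_of_infinite_isRoot
    refine h.mono fun t ht => ?_
    rw [Set.mem_setOf_eq, Polynomial.IsRoot, eval_curve]
    exact ht
  rw [← eval_curve, h1, Polynomial.eval_zero]

end Pool.Agent.Y119.MD
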