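import Pool.Agent.Y685.Stm
import Pool.Agent.W64.TC.Jl
import Pool.Agent.TH172.ER.Deg
import Pool.Agent.Y119.MD.Poly

/-!
# Task D: `τ, η₁, g₂, g₃` are algebraically independent functions
-/

set_option autoImplicit false

open UpperHalfPlane

namespace Pool.Agent.Y119.MD

open H667R3 Pool.Agent.W245.EB Pool.Agent.Y685 Pool.Agent.W480.TC

section scaling

variable {L L' : PeriodPair} {c : ℂ}

theorem zeta_scale (hc : c ≠ 0) (h : ∀ z, z ∈ L.lattice ↔ c * z ∈ L'.lattice) (z : ℂ) :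
    zeta L' (c * z) = c⁻¹ * zeta L z := by
  let E : L.lattice ≃ L'.lattice :=
    { toFun := fun l => ⟨c * l.1, (h _).1 l.2⟩
      invFun := fun l => ⟨c⁻¹ * l.1, (h _).2 (by rw [mul_inv_cancel_left₀ hc]; exact l.2)⟩
      left_inv := fun l => Subtype.ext (by simp only; rw [inv_mul_cancel_left₀ hc])
      right_inv := fun l => Subtype.ext (by simp only; rw [mul_inv_cancel_left₀ hc]) }
  rw [zeta, ← E.tsum_eq, zeta, ← tsum_mul_left]
  refine tsum_congr fun l => ?_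
  change 1 / (c * z - c * l.1) + 1 / (c * l.1) + c * z / (c * l.1) ^ 2 = _
  rw [← mul_sub, one_div, one_div, mul_inv, mul_inv, mul_pow, pow_two c, mul_add, mul_add, one_div,
    one_div]
  congr 1
  rw [mul_assoc c c, mul_div_mul_left _ _ hc, div_mul_eq_div_div, div_eq_mul_inv z c]
  ring

theorem eta_scale (hc : c ≠ 0) (h : ∀ z, z ∈ L.lattice ↔ c * z ∈ L'.lattice) {l : ℂ}
    (hl : l ∈ L.lattice) : eta L' (c * l) = c⁻¹ * eta L l := by
  have h0 := L.ω₁_div_two_notMem_lattice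
  have h1 : c * (L.ω₁ / 2) ∉ L'.lattice := fun h' => h0 ((h _).2 h')
  have e1 := zeta_add_coe L' h1 ((h _).1 hl)
  have e2 := zeta_add_coe L h0 hl
  rw [← mul_add, zeta_scale hc h, zeta_scale hc h, e2] at e1
  linear_combination -e1

theorem g2_scale (hc : c ≠ 0) (h : ∀ z, z ∈ L.lattice ↔ c * z ∈ L'.lattice) :
    L'.g₂ = (c ^ 4)⁻¹ * L.g₂ := by
  rw [PeriodPair.g₂, PeriodPair.g₂, Pool.Agent.W646.MT.G_scale L L' c hc h]
  ring

theorem g3_scale (hc : c ≠ 0) (h : ∀ z, z ∈ L.lattice ↔ c * z ∈ L'.lattice) :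
    L'.g₃ = (c ^ 6)⁻¹ * L.g₃ := by
  rw [PeriodPair.g₃, PeriodPair.g₃, Pool.Agent.W646.MT.G_scale L L' c hc h]
  ring

end scaling

lemma mem_LL (τ : ℍ) (z : ℂ) : z ∈ (LL τ).lattice ↔ ∃ m n : ℤ, (m : ℂ) + n * τ = z := by
  rw [PeriodPair.mem_lattice, LL_ω₁, LL_ω₂]
  simp

/-- every primitive vector of a lattice is the first vector of a basis -/
theorem exists_tau (L : PeriodPair) {a b : ℤ} (hab : IsCoprime a b) :
    (a : ℂ) * L.ω₁ + b * L.ω₂ ≠ 0 ∧ ∃ t : ℂ, ∀ n : ℤ, ∃ τ : ℍ, (τ : ℂ) = t + n ∧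
      ∀ z, z ∈ L.lattice ↔ ((a : ℂ) * L.ω₁ + b * L.ω₂)⁻¹ * z ∈ (LL τ).lattice := by
  obtain ⟨u, w, huw⟩ := hab
  have hind := LinearIndependent.pair_iff.1 L.indep
  set v : ℂ := (a : ℂ) * L.ω₁ + b * L.ω₂ with hv
  set v' : ℂ := -(w : ℂ) * L.ω₁ + u * L.ω₂ with hv'
  have huwR : (u : ℝ) * a + w * b = 1 := by exact_mod_cast huw
  have huwC : (u : ℂ) * a + w * b = 1 := by exact_mod_cast huw
  -- `v, v'` are independent over the reals
  have hind' : ∀ s t : ℝ, (s : ℂ) * v + t * v' = 0 → s = 0 ∧ t = 0 := by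
    intro s t hst
    have h1 := hind (s * a - t * w) (s * b + t * u) (by
      rw [Complex.real_smul, Complex.real_smul]
      push_cast
      rw [← hst, hv, hv']
      ring)
    obtain ⟨h2, h3⟩ := h1
    constructor
    · linear_combination u * h2 + w * h3 - s * huwR
    · linear_combination a * h3 - b * h2 - t * huwR
  have hv0 : v ≠ 0 := by
    intro h0
    have := (hind' 1 0 (by rw [h0]; simp)).1
    exact one_ne_zero this
  have him : (v' / v).im ≠ 0 := by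
    intro h0
    have h1 : v' / v = ((v' / v).re : ℂ) := Complex.ext (by simp) (by simp [h0])
    have h2 : v' = ((v' / v).re : ℂ) * v := by
      rw [← h1]; field_simp
    have := (hind' (-(v' / v).re) 1 (by
      push_cast
      linear_combination h2)).2
    exact one_ne_zero this
  have hmem : ∀ z, z ∈ L.lattice ↔ ∃ m n : ℤ, (m : ℂ) * v + n * v' = z := by
    intro z
    rw [PeriodPair.mem_lattice]
    constructor
    · rintro ⟨p, q, rfl⟩
      refine ⟨u * p + w * q, a * q - b * p, ?_⟩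
      rw [hv, hv']
      push_cast
      linear_combination ((p : ℂ) * L.ω₁ + q * L.ω₂) * huwC
    · rintro ⟨m, n, rfl⟩
      refine ⟨m * a - n * w, m * b + n * u, ?_⟩
      rw [hv, hv']
      push_cast
      ring
  refine ⟨hv0, ?_⟩
  -- the sign
  obtain ⟨ε, hε, hεim⟩ : ∃ ε : ℤ, (ε = 1 ∨ ε = -1) ∧ 0 < ((ε : ℂ) * (v' / v)).im := by
    rcases lt_or_gt_of_ne him with h | h
    · exact ⟨-1, Or.inr rfl, by simpa using h⟩
    · exact ⟨1, Or.inl rfl, by simpa using h⟩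
  have hε2 : ε * ε = 1 := by rcases hε with h | h <;> simp [h]
  have hε2C : (ε : ℂ) * ε = 1 := by exact_mod_cast hε2
  refine ⟨(ε : ℂ) * (v' / v), fun n => ⟨⟨(ε : ℂ) * (v' / v) + n, ?_⟩, rfl, fun z => ?_⟩⟩
  · simpa using hεim
  · rw [hmem, mem_LL]
    change _ ↔ ∃ m p : ℤ, (m : ℂ) + p * ((ε : ℂ) * (v' / v) + n) = v⁻¹ * z
    constructor
    · rintro ⟨m, p, rfl⟩
      refine ⟨m - ε * p * n, ε * p, ?_⟩
      push_cast
      field_simp
      linear_combination (p * v' : ℂ) * hε2C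
    · rintro ⟨m, p, h⟩
      refine ⟨m + p * n, ε * p, ?_⟩
      have h1 : z = v * ((m : ℂ) + p * ((ε : ℂ) * (v' / v) + n)) := by
        rw [h]; field_simp
      rw [h1]
      push_cast
      field_simp
      ring

section main

variable {P : MvPolynomial (Fin 4) ℂ}
  (hP : ∀ τ : ℍ, MvPolynomial.eval ![(τ : ℂ), h1 τ, (LC τ).g₂, (LC τ).g₃] P = 0)

include hP

theorem step2 (x₀ : ℂ) (L : PeriodPair) {a b : ℤ} (hab : IsCoprime a b) :
    MvPolynomial.eval ![x₀, ((a : ℂ) * L.ω₁ + b * L.ω₂) * (a * eta L L.ω₁ + b * eta L L.ω₂),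
      ((a : ℂ) * L.ω₁ + b * L.ω₂) ^ 4 * L.g₂, ((a : ℂ) * L.ω₁ + b * L.ω₂) ^ 6 * L.g₃] P = 0 := by
  obtain ⟨hv0, t, ht⟩ := exists_tau L hab
  set v : ℂ := (a : ℂ) * L.ω₁ + b * L.ω₂ with hv
  have hvL : v ∈ L.lattice := by
    rw [PeriodPair.mem_lattice]
    exact ⟨a, b, rfl⟩
  have heta : eta L v = a * eta L L.ω₁ + b * eta L L.ω₂ := by
    have ha : (a : ℂ) * L.ω₁ ∈ L.lattice := by
      rw [PeriodPair.mem_lattice]; exact ⟨a, 0, by simp⟩
    have hb : (b : ℂ) * L.ω₂ ∈ L.lattice := by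
      rw [PeriodPair.mem_lattice]; exact ⟨0, b, by simp⟩
    rw [hv, eta_add L ha hb, eta_zsmul L L.ω₁_mem_lattice, eta_zsmul L L.ω₂_mem_lattice]
  have key : ∀ n : ℤ, MvPolynomial.eval ![t + n, v * (a * eta L L.ω₁ + b * eta L L.ω₂),
      v ^ 4 * L.g₂, v ^ 6 * L.g₃] P = 0 := by
    intro n
    obtain ⟨τ, hτ, hmem⟩ := ht n
    have hv1 : v⁻¹ ≠ 0 := inv_ne_zero hv0
    have e1 := hP τ
    have e2 : h1 (τ : ℂ) = v * (a * eta L L.ω₁ + b * eta L L.ω₂) := by
      have := eta_scale hv1 hmem hvL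
      rw [inv_mul_cancel₀ hv0, inv_inv, heta] at this
      rw [h1, LC_coe, this]
    rw [hτ, ← hτ, e2, LC_coe, g2_scale hv1 hmem, g3_scale hv1 hmem, hτ] at e1
    simpa using e1
  have := Pool.Agent.Y119.MD.curve_zero P ![Polynomial.X,
    Polynomial.C (v * (a * eta L L.ω₁ + b * eta L L.ω₂)), Polynomial.C (v ^ 4 * L.g₂),
    Polynomial.C (v ^ 6 * L.g₃)] (by
      refine Set.infinite_of_injective_forall_mem (f := fun n : ℤ => t + (n : ℂ)) ?_ ?_
      · intro m n hmn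
        simpa using hmn
      · intro n
        have h2 : (fun i => (![Polynomial.X, Polynomial.C (v * (a * eta L L.ω₁ + b * eta L L.ω₂)),
            Polynomial.C (v ^ 4 * L.g₂), Polynomial.C (v ^ 6 * L.g₃)] i : Polynomial ℂ).eval
              (t + n)) = ![t + n, v * (a * eta L L.ω₁ + b * eta L L.ω₂), v ^ 4 * L.g₂,
                v ^ 6 * L.g₃] := by
          funext i; fin_cases i <;> simp
        change MvPolynomial.eval _ P = 0
        rw [h2]
        exact key n) x₀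
  have h2 : (fun i => (![Polynomial.X, Polynomial.C (v * (a * eta L L.ω₁ + b * eta L L.ω₂)),
            Polynomial.C (v ^ 4 * L.g₂), Polynomial.C (v ^ 6 * L.g₃)] i : Polynomial ℂ).eval
              x₀) = ![x₀, v * (a * eta L L.ω₁ + b * eta L L.ω₂), v ^ 4 * L.g₂, v ^ 6 * L.g₃] := by
    funext i; fin_cases i <;> simp
  rw [h2] at this
  exact this

/-- step 3: the second coordinate is free -/
theorem step3a (x₀ : ℂ) (L : PeriodPair) (a : ℕ) (ha : 1 ≤ a) (t : ℂ) :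
    MvPolynomial.eval ![x₀, ((a : ℂ) * L.ω₁ + t * L.ω₂) * (a * eta L L.ω₁ + t * eta L L.ω₂),
      ((a : ℂ) * L.ω₁ + t * L.ω₂) ^ 4 * L.g₂, ((a : ℂ) * L.ω₁ + t * L.ω₂) ^ 6 * L.g₃] P = 0 := by
  let p : Fin 4 → Polynomial ℂ := ![Polynomial.C x₀,
    (Polynomial.C ((a : ℂ) * L.ω₁) + Polynomial.X * Polynomial.C L.ω₂) *
      (Polynomial.C (a * eta L L.ω₁) + Polynomial.X * Polynomial.C (eta L L.ω₂)),
    (Polynomial.C ((a : ℂ) * L.ω₁) + Polynomial.X * Polynomial.C L.ω₂) ^ 4 * Polynomial.C L.g₂,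
    (Polynomial.C ((a : ℂ) * L.ω₁) + Polynomial.X * Polynomial.C L.ω₂) ^ 6 * Polynomial.C L.g₃]
  have hp : ∀ t : ℂ, (fun i => (p i).eval t) =
      ![x₀, ((a : ℂ) * L.ω₁ + t * L.ω₂) * (a * eta L L.ω₁ + t * eta L L.ω₂),
      ((a : ℂ) * L.ω₁ + t * L.ω₂) ^ 4 * L.g₂, ((a : ℂ) * L.ω₁ + t * L.ω₂) ^ 6 * L.g₃] := by
    intro t
    funext i
    fin_cases i
    · simp [p]
    · simp [p]; ring
    · simp [p]; left; ring
    · simp [p]; left; ring
  rw [← hp]
  refine Pool.Agent.Y119.MD.curve_zero P p ?_ t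
  refine Set.infinite_of_injective_forall_mem (f := fun n : ℤ => (1 : ℂ) + a * (n : ℂ)) ?_ ?_
  · intro m n hmn
    have ha0 : (a : ℂ) ≠ 0 := by exact_mod_cast (by omega : a ≠ 0)
    simpa [ha0] using hmn
  · intro n
    change MvPolynomial.eval _ P = 0
    rw [hp]
    have hab : IsCoprime (a : ℤ) (1 + a * n) := ⟨-n, 1, by ring⟩
    have := step2 hP x₀ L hab
    push_cast at this
    exact this

/-- step 3: both coordinates are free -/
theorem step3 (x₀ : ℂ) (L : PeriodPair) (s t : ℂ) :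
    MvPolynomial.eval ![x₀, (s * L.ω₁ + t * L.ω₂) * (s * eta L L.ω₁ + t * eta L L.ω₂),
      (s * L.ω₁ + t * L.ω₂) ^ 4 * L.g₂, (s * L.ω₁ + t * L.ω₂) ^ 6 * L.g₃] P = 0 := by
  let p : Fin 4 → Polynomial ℂ := ![Polynomial.C x₀,
    (Polynomial.X * Polynomial.C L.ω₁ + Polynomial.C (t * L.ω₂)) *
      (Polynomial.X * Polynomial.C (eta L L.ω₁) + Polynomial.C (t * eta L L.ω₂)),
    (Polynomial.X * Polynomial.C L.ω₁ + Polynomial.C (t * L.ω₂)) ^ 4 * Polynomial.C L.g₂,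
    (Polynomial.X * Polynomial.C L.ω₁ + Polynomial.C (t * L.ω₂)) ^ 6 * Polynomial.C L.g₃]
  have hp : ∀ s : ℂ, (fun i => (p i).eval s) =
      ![x₀, (s * L.ω₁ + t * L.ω₂) * (s * eta L L.ω₁ + t * eta L L.ω₂),
      (s * L.ω₁ + t * L.ω₂) ^ 4 * L.g₂, (s * L.ω₁ + t * L.ω₂) ^ 6 * L.g₃] := by
    intro s
    funext i
    fin_cases i
    · simp [p]
    · simp [p]; ring
    · simp [p]; left; ring
    · simp [p]; left; ring
  rw [← hp]
  refine Pool.Agent.Y119.MD.curve_zero P p ?_ s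
  refine Set.infinite_of_injective_forall_mem (f := fun n : ℕ => ((n : ℂ) + 1)) ?_ ?_
  · intro m n hmn
    simpa using hmn
  · intro n
    change MvPolynomial.eval _ P = 0
    rw [hp]
    have := step3a hP x₀ L (n + 1) (by omega) t
    push_cast at this
    exact this

theorem step4 (x₀ x₁ u : ℂ) (hu : u ≠ 0) (L : PeriodPair) :
    MvPolynomial.eval ![x₀, x₁, u ^ 4 * L.g₂, u ^ 6 * L.g₃] P = 0 := by
  have hD : eta L L.ω₁ * L.ω₂ - eta L L.ω₂ * L.ω₁ ≠ 0 := by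
    intro h
    have h1 : L.ω₁ ≠ 0 := by
      intro h0
      apply L.ω₁_div_two_notMem_lattice
      rw [h0, zero_div]
      exact zero_mem _
    apply Pool.Agent.TH172.ER.not_prop L (eta L L.ω₁ / L.ω₁)
    intro l hl
    obtain ⟨m, n, rfl⟩ := PeriodPair.mem_lattice.1 hl
    have hm : (m : ℂ) * L.ω₁ ∈ L.lattice := by
      rw [PeriodPair.mem_lattice]; exact ⟨m, 0, by simp⟩
    have hn : (n : ℂ) * L.ω₂ ∈ L.lattice := by
      rw [PeriodPair.mem_lattice]; exact ⟨0, n, by simp⟩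
    rw [eta_add L hm hn, eta_zsmul L L.ω₁_mem_lattice, eta_zsmul L L.ω₂_mem_lattice]
    field_simp
    linear_combination -(n : ℂ) * h
  set D := eta L L.ω₁ * L.ω₂ - eta L L.ω₂ * L.ω₁ with hDdef
  have h := step3 hP x₀ L ((x₁ / u * L.ω₂ - u * eta L L.ω₂) / D)
    ((u * eta L L.ω₁ - x₁ / u * L.ω₁) / D)
  have e1 : ∀ w : ℂ, (w * L.ω₂ - u * eta L L.ω₂) / D * L.ω₁ +
      (u * eta L L.ω₁ - w * L.ω₁) / D * L.ω₂ = u := by
    intro w
    rw [div_mul_eq_mul_div, div_mul_eq_mul_div, ← add_div, div_eq_iff hD, hDdef]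
    ring
  have e2 : ∀ w : ℂ, (w * L.ω₂ - u * eta L L.ω₂) / D * eta L L.ω₁ +
      (u * eta L L.ω₁ - w * L.ω₁) / D * eta L L.ω₂ = w := by
    intro w
    rw [div_mul_eq_mul_div, div_mul_eq_mul_div, ← add_div, div_eq_iff hD, hDdef]
    ring
  rw [e1, e2, mul_div_cancel₀ _ hu] at h
  exact h

theorem step5 (x₀ x₁ y z : ℂ) (hy : y ≠ 0) :
    MvPolynomial.eval ![x₀, x₁, y, z] P = 0 := by
  -- the lattices
  have hlat : ∀ a : Set.Ioo (0 : ℝ) 1728, ∃ w : ℂ,
      MvPolynomial.eval ![x₀, x₁, y, w] P = 0 ∧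
        (1728 : ℂ) * y ^ 3 = ((a : ℝ) : ℂ) * (y ^ 3 - 27 * w ^ 2) := by
    intro a
    obtain ⟨L, hL⟩ := Pool.Agent.W64.TC.exists_lattice a a.2.1 a.2.2
    have ha0 : ((a : ℝ) : ℂ) ≠ 0 := by exact_mod_cast a.2.1.ne'
    have hg : L.g₂ ≠ 0 := by
      intro h0
      rw [jInv, h0] at hL
      apply ha0
      rw [← hL]; simp
    have hd : L.g₂ ^ 3 - 27 * L.g₃ ^ 2 ≠ 0 := by
      intro h0
      rw [jInv, h0, div_zero] at hL
      exact ha0 hL.symm
    obtain ⟨u, hu⟩ := IsAlgClosed.exists_pow_nat_eq (y / L.g₂) (n := 4) (by norm_num)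
    have hu0 : u ≠ 0 := by
      intro h0
      rw [h0] at hu
      have : y / L.g₂ = 0 := by rw [← hu]; norm_num
      rcases div_eq_zero_iff.1 this with h | h
      · exact hy h
      · exact hg h
    have hy' : u ^ 4 * L.g₂ = y := by rw [hu]; field_simp
    refine ⟨u ^ 6 * L.g₃, ?_, ?_⟩
    · have := step4 hP x₀ x₁ u hu0 L
      rwa [hy'] at this
    · rw [jInv, div_eq_iff hd] at hL
      rw [← hy']
      linear_combination u ^ 12 * hL
  choose w hw1 hw2 using hlat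
  let p : Fin 4 → Polynomial ℂ := ![Polynomial.C x₀, Polynomial.C x₁, Polynomial.C y, Polynomial.X]
  have hp : ∀ t : ℂ, (fun i => (p i).eval t) = ![x₀, x₁, y, t] := by
    intro t
    funext i
    fin_cases i <;> simp [p]
  rw [← hp]
  refine Pool.Agent.Y119.MD.curve_zero P p ?_ z
  have hinf : Infinite (Set.Ioo (0 : ℝ) 1728) := (Set.Ioo_infinite (by norm_num)).to_subtype
  refine Set.infinite_of_injective_forall_mem (f := w) ?_ ?_
  · intro a b hab
    have h1 := hw2 a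
    have h2 := hw2 b
    rw [hab] at h1
    have hne : y ^ 3 - 27 * w b ^ 2 ≠ 0 := by
      intro h0
      rw [h0, mul_zero] at h2
      have : y ^ 3 = 0 := by
        have h3 : (1728 : ℂ) ≠ 0 := by norm_num
        exact (mul_eq_zero.1 h2).resolve_left h3
      exact hy (pow_eq_zero_iff (by norm_num) |>.1 this)
    have h4 : ((a : ℝ) : ℂ) = ((b : ℝ) : ℂ) := by
      apply mul_right_cancel₀ hne
      rw [← h1, h2]
    exact Subtype.ext (by exact_mod_cast h4)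
  · intro a
    change MvPolynomial.eval _ P = 0
    rw [hp]
    exact hw1 a

theorem step6 (x₀ x₁ y z : ℂ) : MvPolynomial.eval ![x₀, x₁, y, z] P = 0 := by
  let p : Fin 4 → Polynomial ℂ := ![Polynomial.C x₀, Polynomial.C x₁, Polynomial.X, Polynomial.C z]
  have hp : ∀ t : ℂ, (fun i => (p i).eval t) = ![x₀, x₁, t, z] := by
    intro t
    funext i
    fin_cases i <;> simp [p]
  rw [← hp]
  refine Pool.Agent.Y119.MD.curve_zero P p ?_ y
  refine Set.infinite_of_injective_forall_mem (f := fun n : ℕ => ((n : ℂ) + 1)) ?_ ?_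
  · intro m n hmn
    simpa using hmn
  · intro n
    change MvPolynomial.eval _ P = 0
    rw [hp]
    exact step5 hP x₀ x₁ _ z (by exact_mod_cast Nat.succ_ne_zero n)

end main

theorem task_D : Pool.Agent.Y685.S_D := by
  intro P hP
  by_contra hne
  push Not at hne
  apply hP
  apply MvPolynomial.funext
  intro x
  rw [map_zero]
  have := step6 hne (x 0) (x 1) (x 2) (x 3)
  have hx : ![x 0, x 1, x 2, x 3] = x := by
    funext i
    fin_cases i <;> rfl
  rwa [hx] at this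

end Pool.Agent.Y119.MD
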